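import Mathlib

/-!
# Project MR: MP_e79d62_co (MRD codes in even characteristic), statements of the pieces

`K` is a finite field of characteristic two with an automorphism `σ` of order eight.  We write
`F`, `M`, `L` for the fixed fields of `σ`, `σ²`, `σ⁴` (so `F ⊂ M ⊂ L ⊂ K`, degrees `1, 2, 4, 8`).
Complete proofs: `NOTES.md` in this folder.
-/

set_option autoImplicit false

open Finset

namespace Pool.Agent.R793.MR

/-- The standing hypotheses; `χ` is the character `(-1) ^ Tr` of the fixed field `F` of `σ`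
(its values outside `F` are irrelevant). -/
structure Setup {K : Type} [Field K] [Fintype K] (σ : K ≃+* K) (χ : K → ℤ) : Prop where
  h8 : ∀ x, σ (σ (σ (σ (σ (σ (σ (σ x))))))) = x
  h4 : ∃ x, σ (σ (σ (σ x))) ≠ x
  pm : ∀ x, σ x = x → χ x = 1 ∨ χ x = -1
  add : ∀ x y, σ x = x → σ y = y → χ (x + y) = χ x * χ y
  sq : ∀ x, σ x = x → χ (x ^ 2) = χ x
  one : ∀ x, σ x = x → (χ x = 1 ↔ ∃ y, σ y = y ∧ y ^ 2 + y = x)
  neg : ∃ x, σ x = x ∧ χ x = -1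

section
variable {K : Type} [Field K] [Fintype K] [DecidableEq K]

/-- The field `F`. -/
def FF (σ : K ≃+* K) : Finset K := univ.filter (fun x => σ x = x)

/-- `V = {c : c + σ⁴ c ∈ F}`, of dimension five over `F`. -/
def VV (σ : K ≃+* K) : Finset K :=
  univ.filter (fun c => σ (c + σ (σ (σ (σ c)))) = c + σ (σ (σ (σ c))))

/-- The admissible `x`: `σ² x = x + 1`. -/
def XX (σ : K ≃+* K) : Finset K := univ.filter (fun x => σ (σ x) = x + 1)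

end

section
variable {K : Type} [Field K]

/-- `H c = c σ²c + λ m σm + σ²(λ m σm)` with `m = c + σ c`. -/
def HH (σ : K ≃+* K) (lam c : K) : K :=
  c * σ (σ c) + lam * ((c + σ c) * (σ c + σ (σ c)))
    + σ (σ lam) * ((σ (σ c) + σ (σ (σ c))) * (σ (σ (σ c)) + σ (σ (σ (σ c)))))

/-- The quadratic form in terms of `m₀, m₁, m₂, m₃, c` and `c' = σ⁴ c`. -/
def qf (σ : K ≃+* K) (lam x m0 m1 m2 m3 c c' : K) : K :=
  lam * (m0 * m1) + σ lam * (m1 * m2) + σ (σ lam) * (m2 * m3)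
    + (σ (σ (σ lam)) + 1) * (m0 * m3) + x * (m0 * m2) + σ x * (m1 * m3) + c * c'

/-- The quadratic form `Q_x` on `V` (values in `F` when `σ² x = x + 1`, `σ⁴ λ = λ`):
`Q_x c = ∑_{i<j<4} N_ij m_i m_j + c σ⁴c`, `m_i = σ^i (c + σ c)`. -/
def QQ (σ : K ≃+* K) (lam x c : K) : K :=
  qf σ lam x (c + σ c) (σ c + σ (σ c)) (σ (σ c) + σ (σ (σ c)))
    (σ (σ (σ c)) + σ (σ (σ (σ c)))) c (σ (σ (σ (σ c))))

/-- Its polar form. -/
def BB (σ : K ≃+* K) (lam x c d : K) : K :=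
  QQ σ lam x (c + d) + QQ σ lam x c + QQ σ lam x d

/-- The trace of `λ` from `L` to `F`. -/
def tr4 (σ : K ≃+* K) (lam : K) : K := lam + σ lam + σ (σ lam) + σ (σ (σ lam))

end

/-- **MR-CH**: the character exists. -/
def StmCH : Prop := ∀ (K : Type) [Field K] [Fintype K] [CharP K 2] (σ : K ≃+* K),
  (∀ x, σ (σ (σ (σ (σ (σ (σ (σ x))))))) = x) → (∃ x, σ (σ (σ (σ x))) ≠ x) →
  ∃ χ : K → ℤ, Setup σ χ

/-- **MR-IND**: `c, m₀, m₁, m₂, m₃` are independent on `V`; the number of elements of `V`;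
elements of trace one. -/
def StmInd : Prop := ∀ (K : Type) [Field K] [Fintype K] [DecidableEq K] [CharP K 2]
  (σ : K ≃+* K),
  (∀ x, σ (σ (σ (σ (σ (σ (σ (σ x))))))) = x) → (∃ x, σ (σ (σ (σ x))) ≠ x) →
  (∀ k0 k1 k2 k3 k : K, (∀ c ∈ VV σ, k0 * (c + σ c) + k1 * (σ c + σ (σ c))
      + k2 * (σ (σ c) + σ (σ (σ c))) + k3 * (σ (σ (σ c)) + σ (σ (σ (σ c)))) + k * c = 0) →
    k0 = 0 ∧ k1 = 0 ∧ k2 = 0 ∧ k3 = 0 ∧ k = 0) ∧
  (VV σ).card = (FF σ).card ^ 5 ∧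
  (∃ z, z + σ (σ (σ (σ z))) = 1) ∧
  (∃ th, σ (σ (σ (σ th))) = th ∧ tr4 σ th = 1) ∧
  (∃ w z, σ w = w + z ∧ σ z = z + 1) ∧
  (univ.filter (fun x => σ (σ x) = x)).card = (FF σ).card ^ 2

/-- **MR-A** (done by helper793): a zero of `H`. -/
def StmA : Prop := ∀ (K : Type) [Field K] [Fintype K] [CharP K 2] (σ : K ≃+* K) (χ : K → ℤ),
  Setup σ χ → ∀ lam : K, σ (σ (σ (σ lam))) = lam → lam ≠ 0 → lam ≠ 1 → tr4 σ lam ≠ 1 →
  ∃ c, σ (σ (σ (σ c))) = c ∧ c ≠ 0 ∧ HH σ lam c = 0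

/-- **MR-B1**: from a zero of `H` to a degenerate form. -/
def StmB1 : Prop := ∀ (K : Type) [Field K] [Fintype K] [DecidableEq K] [CharP K 2]
  (σ : K ≃+* K) (χ : K → ℤ),
  Setup σ χ → ∀ lam : K, σ (σ (σ (σ lam))) = lam → tr4 σ lam ≠ 1 →
  ∀ c, σ (σ (σ (σ c))) = c → c ≠ 0 → HH σ lam c = 0 →
  ∃ x ∈ XX σ, ∑ d ∈ VV σ, χ (QQ σ lam x d) ≠ 0

/-- **MR-B3**: the sum over all `x`. -/
def StmB3 : Prop := ∀ (K : Type) [Field K] [Fintype K] [DecidableEq K] [CharP K 2]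
  (σ : K ≃+* K) (χ : K → ℤ),
  Setup σ χ → ∀ lam : K, σ (σ (σ (σ lam))) = lam →
  ∑ x ∈ XX σ, ∑ d ∈ VV σ, χ (QQ σ lam x d) = 0

/-- **MR-C1**: a form with positive sum is hyperbolic (or degenerate). -/
def StmC1 : Prop := ∀ (K : Type) [Field K] [Fintype K] [DecidableEq K] [CharP K 2]
  (σ : K ≃+* K) (χ : K → ℤ),
  Setup σ χ → ∀ lam : K, σ (σ (σ (σ lam))) = lam →
  ∀ x ∈ XX σ, 0 < ∑ d ∈ VV σ, χ (QQ σ lam x d) →
  ∃ e r u : K, e + σ (σ (σ (σ e))) = 1 ∧ σ (σ (σ (σ r))) = r ∧ σ (σ (σ (σ u))) = u ∧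
    ∀ c ∈ VV σ, QQ σ lam x c =
      BB σ lam x c (e + 1) * BB σ lam x c e + BB σ lam x c u * BB σ lam x c r

/-- **MR-C2**: from the hyperbolic form to `t`. -/
def StmC2 : Prop := ∀ (K : Type) [Field K] [Fintype K] [DecidableEq K] [CharP K 2]
  (σ : K ≃+* K),
  (∀ x, σ (σ (σ (σ (σ (σ (σ (σ x))))))) = x) → (∃ x, σ (σ (σ (σ x))) ≠ x) →
  ∀ lam : K, σ (σ (σ (σ lam))) = lam → ∀ x ∈ XX σ,
  ∀ e r u : K, e + σ (σ (σ (σ e))) = 1 → σ (σ (σ (σ r))) = r → σ (σ (σ (σ u))) = u →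
    (∀ c ∈ VV σ, QQ σ lam x c =
      BB σ lam x c (e + 1) * BB σ lam x c e + BB σ lam x c u * BB σ lam x c r) →
  ∃ t, σ (σ (σ (σ t))) ≠ t ∧ (t + σ t) * (σ (σ (σ (σ t))) + σ (σ (σ (σ (σ t))))) =
    lam * ((t + σ (σ (σ (σ t)))) * (σ t + σ (σ (σ (σ (σ t))))))

/-- **MR-T** (assembled by helper793 from the pieces above): the required `t` exists. -/
def StmT : Prop := ∀ (K : Type) [Field K] [Fintype K] [CharP K 2] (σ : K ≃+* K),
  (∀ x, σ (σ (σ (σ (σ (σ (σ (σ x))))))) = x) → (∃ x, σ (σ (σ (σ x))) ≠ x) →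
  ∀ kap : K, σ (σ (σ (σ kap))) = kap → kap ≠ 0 →
  ∃ t, σ t ≠ t ∧ (t + σ t) * (σ (σ (σ (σ t))) + σ (σ (σ (σ (σ t))))) =
    kap * ((t + σ (σ (σ (σ (σ t))))) * (σ (σ (σ (σ t))) + σ t))

/-- The code `C_{δ,s} = {a x + b (x ^ (q ^ s) + δ x ^ (q ^ (4 + s))) : a, b ∈ K}`, where
`q` is the number of elements of `F`, as an `F`-subspace of the `F`-linear maps `K → K`. -/
def code (F : Type) {K : Type} [Field F] [Fintype F] [Field K] [Algebra F K]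
    (δ : K) (s : ℕ) : Submodule F (K →ₗ[F] K) where
  carrier := {φ | ∃ a b : K, ∀ x : K, φ x = a * x + b *
    (x ^ (Fintype.card F ^ s) + δ * x ^ (Fintype.card F ^ (4 + s)))}
  add_mem' := by
    rintro φ ψ ⟨a, b, h⟩ ⟨a', b', h'⟩
    exact ⟨a + a', b + b', fun x => by rw [LinearMap.add_apply, h, h']; ring⟩
  zero_mem' := ⟨0, 0, fun x => by simp⟩
  smul_mem' := by
    rintro t φ ⟨a, b, h⟩
    exact ⟨t • a, t • b, fun x => by
      rw [LinearMap.smul_apply, h]; simp only [Algebra.smul_def]; ring⟩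

/-- A linear code `C` of `F`-linear maps `K → K`, where `[K : F] = 8`, is MRD: the minimum rank `d`
of its nonzero elements satisfies `dim C = 8 (8 - d + 1)`. -/
def IsMRD {F K : Type} [Field F] [Field K] [Algebra F K] (C : Submodule F (K →ₗ[F] K)) : Prop :=
  ∃ d : ℕ, IsLeast {r : ℕ | ∃ φ ∈ C, φ ≠ 0 ∧ r = Module.finrank F (LinearMap.range φ)} d ∧
    Module.finrank F C = 8 * (8 - d + 1)

/-- The final statement: in even characteristic no code `C_{δ,s}` is MRD. -/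
def StmFinal : Prop := ∀ (F K : Type) [Field F] [Fintype F] [Field K] [Fintype K] [Algebra F K],
  Even (Fintype.card F) → Module.finrank F K = 8 → ∀ δ : K, δ ≠ 0 →
  ∀ s : ℕ, (s = 1 ∨ s = 3 ∨ s = 5 ∨ s = 7) → ¬ IsMRD (code F δ s)

/-- **MR-D**: from `StmT` to the codes (adapt `Pool/Agent/MP5d0678/Main.lean` of helper20). -/
def StmD : Prop := StmT → StmFinal

end Pool.Agent.R793.MR
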