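import Pool.Agent.R793.MR.AChar

set_option autoImplicit false

open Finset

namespace Pool.Agent.R793.MR

section
variable {K : Type} [Field K] [Fintype K] [CharP K 2] {σ : K ≃+* K} {χ : K → ℤ}

theorem pM_lin (hS : Setup σ χ) {a w n : K} (ha : σ (σ a) = a) (hw : σ (σ w) = w)
    (hn : σ (σ n) = n) :
    pM σ χ (w * (a + n * (a + σ a))) = pM σ χ (a * (w + (w * n + σ w * σ n))) := by
  have e1 : w * (a + n * (a + σ a)) = a * (w + w * n) + σ a * (w * n) := by ring
  have e2 : a * (w + (w * n + σ w * σ n)) = a * (w + w * n) + σ (σ a * (w * n)) := by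
    rw [map_mul, map_mul, ha]; ring
  have h1 : σ (σ (a * (w + w * n))) = a * (w + w * n) := by
    simp only [map_add, map_mul, ha, hw, hn]
  have h2 : σ (σ (σ a * (w * n))) = σ a * (w * n) := by
    simp only [map_mul, ha, hw, hn]
  have h3 : σ (σ (σ (σ a * (w * n)))) = σ (σ a * (w * n)) := by rw [h2]
  rw [e1, e2, pM_add hS h1 h2, pM_add hS h1 h3, pM_conj hS h2]

theorem stmA_core [DecidableEq K] (hS : Setup σ χ) (hMF : (MM σ).card = (FF σ).card ^ 2)
    {o s l : K} (ho : σ o = o + s) (hs : σ s = s + 1) (hl4 : σ (σ (σ (σ l))) = l)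
    (hl0 : l ≠ 0) (hl1 : l ≠ 1) (htr : tr4 σ (l ^ 4) ≠ 1) :
    ∃ c, σ (σ (σ (σ c))) = c ∧ c ≠ 0 ∧ HH σ (l ^ 4) c = 0 := by
  by_contra hcon
  push Not at hcon
  have two := two_zero (K := K)
  obtain ⟨l1, hl1'⟩ : ∃ x, x = σ l := ⟨_, rfl⟩
  obtain ⟨l2, hl2'⟩ : ∃ x, x = σ l1 := ⟨_, rfl⟩
  obtain ⟨l3, hl3'⟩ : ∃ x, x = σ l2 := ⟨_, rfl⟩
  have hl3s : σ l3 = l := by rw [hl3', hl2', hl1', hl4]
  have s0 : σ l = l1 := hl1'.symm
  have s1 : σ l1 = l2 := hl2'.symm
  have s2 : σ l2 = l3 := hl3'.symm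
  obtain ⟨u, hu⟩ : ∃ x, x = l + l2 := ⟨_, rfl⟩
  obtain ⟨v, hv⟩ : ∃ x, x = l1 + l3 := ⟨_, rfl⟩
  have hsu : σ u = v := by rw [hu, hv, map_add, s0, s2]
  have hsv : σ v = u := by rw [hu, hv, map_add, s1, hl3s, add_comm]
  obtain ⟨e, he⟩ : ∃ x, x = 1 + u ^ 2 + v ^ 2 := ⟨_, rfl⟩
  have he' : e = 1 + v ^ 2 + u ^ 2 := by rw [he]; ring
  have hse : σ e = e := by rw [he, map_add, map_add, map_one, map_pow, map_pow, hsu, hsv]; ring
  have he0 : e ≠ 0 := by
    intro h
    apply htr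
    have h1 : e ^ 2 = 1 + tr4 σ (l ^ 4) := by
      unfold tr4
      rw [he, hu, hv]
      simp only [map_pow, s0, s1, s2]
      (rw [← sub_eq_zero]; ring_nf; simp only [ofNat_even, ofNat_odd, Nat.reduceMod,
        mul_zero, zero_mul, mul_one, one_mul, add_zero, zero_add, neg_zero, sub_zero, sub_self])
    rw [h] at h1
    have h2 : tr4 σ (l ^ 4) = 1 + (0 : K) ^ 2 - 2 := by rw [h1]; ring
    rw [h2, two]; ring
  have hoo : σ (σ o) = o + 1 := by
    rw [ho, map_add, ho, hs]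
    linear_combination s * two
  have hss : σ (σ s) = s := by
    rw [hs, map_add, hs, map_one, add_assoc, addself, add_zero]
  -- fixed by `σ²`
  have u2 : σ (σ u) = u := by rw [hsu, hsv]
  have v2 : σ (σ v) = v := by rw [hsv, hsu]
  have e2 : σ (σ e) = e := by rw [hse, hse]
  obtain ⟨X1, hX1⟩ : ∃ x, x = l3 ^ 2 + v ^ 2 * (o + 1) := ⟨_, rfl⟩
  obtain ⟨X2, hX2⟩ : ∃ x, x = l3 + v * (o + 1) := ⟨_, rfl⟩
  obtain ⟨O, hO⟩ : ∃ x, x = o ^ 2 + o := ⟨_, rfl⟩
  have hl3v : l1 = l3 + v := by rw [hv]; linear_combination -l3 * two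
  have X12 : σ (σ X1) = X1 := by
    rw [hX1]
    simp only [map_add, map_mul, map_pow, map_one, v2, hoo, hl3s, s0]
    rw [hl3v]
    (rw [← sub_eq_zero]; ring_nf; simp only [ofNat_even, ofNat_odd, Nat.reduceMod,
        mul_zero, zero_mul, mul_one, one_mul, add_zero, zero_add, neg_zero, sub_zero, sub_self])
  have X22 : σ (σ X2) = X2 := by
    rw [hX2]
    simp only [map_add, map_mul, map_one, v2, hoo, hl3s, s0]
    rw [hl3v]
    (rw [← sub_eq_zero]; ring_nf; simp only [ofNat_even, ofNat_odd, Nat.reduceMod,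
        mul_zero, zero_mul, mul_one, one_mul, add_zero, zero_add, neg_zero, sub_zero, sub_self])
  have O2 : σ (σ O) = O := by
    rw [hO]
    simp only [map_add, map_pow, hoo]
    (rw [← sub_eq_zero]; ring_nf; simp only [ofNat_even, ofNat_odd, Nat.reduceMod,
        mul_zero, zero_mul, mul_one, one_mul, add_zero, zero_add, neg_zero, sub_zero, sub_self])
  -- `k`
  obtain ⟨k, hk⟩ : ∃ x, x = al1 u v e X1 X2 O + rh u v e X1 X2 := ⟨_, rfl⟩
  have hkv : k = l3 * (l3 + 1) * ((l3 + v) * (l3 + v + 1)) / e := by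
    rw [hk, hX1, hX2, hO]; exact kval he he0
  have hk0 : k ≠ 0 := by
    have n1 : ∀ x : K, x ≠ 1 → x + 1 ≠ 0 := by
      intro x hx h
      apply hx
      linear_combination h - two
    have a1 : l3 ≠ 0 := by
      intro h; rw [h, map_zero] at hl3s; exact hl0 hl3s.symm
    have a2 : l3 ≠ 1 := by
      intro h; rw [h, map_one] at hl3s; exact hl1 hl3s.symm
    have a3 : l1 ≠ 0 := by
      intro h
      rw [h] at s0
      exact hl0 ((map_eq_zero σ).mp s0)
    have a4 : l1 ≠ 1 := by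
      intro h
      rw [h] at s0
      exact hl1 ((map_eq_one_iff σ σ.injective).mp s0)
    rw [hkv, ← hl3v]
    exact div_ne_zero (mul_ne_zero (mul_ne_zero a1 (n1 _ a2)) (mul_ne_zero a3 (n1 _ a4))) he0
  have al1M : σ (σ (al1 u v e X1 X2 O)) = al1 u v e X1 X2 O := by
    simp only [al1, map_add, map_mul, map_pow, map_div₀, map_one, u2, v2, e2, X12, X22, O2]
  have rhM : σ (σ (rh u v e X1 X2)) = rh u v e X1 X2 := by
    simp only [rh, map_add, map_mul, map_pow, map_div₀, map_one, u2, v2, e2, X12, X22]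
  have al0M : σ (σ (al0 u e X1 O)) = al0 u e X1 O := by
    simp only [al0, map_add, map_mul, map_pow, map_div₀, map_one, u2, e2, X12, O2]
  have kM : σ (σ k) = k := by rw [hk, map_add, map_add, al1M, rhM]
  -- the value of `Θ`
  have hTheta : ∀ y ∈ MM σ, y ≠ 0 →
      pM σ χ (y ^ 2 * hb u l2 o s (Ly u v e y (σ y) / y ^ 2) (Ly v u e (σ y) y / σ y ^ 2)) =
      χ ((al0 u e X1 O + σ (al0 u e X1 O)) + k * (σ y / y) + σ k * (y / σ y)) := by
    intro y hy hy0
    rw [mem_MM] at hy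
    have hsy0 : σ y ≠ 0 := by rw [Ne, map_eq_zero]; exact hy0
    have sL : σ (Ly u v e y (σ y)) = Ly v u e (σ y) y := by
      simp only [Ly, map_add, map_mul, map_pow, map_div₀, map_one, hsu, hsv, hse, hy]
    have sL' : σ (Ly v u e (σ y) y) = Ly u v e y (σ y) := by
      simp only [Ly, map_add, map_mul, map_pow, map_div₀, map_one, hsu, hsv, hse, hy]
    rw [theta1 hy0 hsy0]
    obtain ⟨A1, hA1⟩ : ∃ x, x = (o ^ 2 + o) * (1 + u ^ 2) * Ly u v e y (σ y) / y := ⟨_, rfl⟩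
    obtain ⟨B1, hB1⟩ : ∃ x, x = (l2 ^ 2 + u ^ 2 * (o + s)) ^ 2 * Ly u v e y (σ y) *
      Ly v u e (σ y) y / σ y ^ 2 := ⟨_, rfl⟩
    obtain ⟨C1, hC1⟩ : ∃ x, x = (l2 + u * (o + s)) ^ 2 * Ly v u e (σ y) y * y / σ y ^ 2 :=
      ⟨_, rfl⟩
    rw [← hA1, ← hB1, ← hC1]
    have hos : σ (o + s) = o + 1 := by
      rw [map_add, ho, hs]; linear_combination s * two
    have sB1 : σ B1 = X1 ^ 2 * Ly v u e (σ y) y * Ly u v e y (σ y) / y ^ 2 := by
      rw [hB1, hX1]
      simp only [map_add, map_mul, map_pow, map_div₀, sL, sL', hy, s2, hsu]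
      rw [← map_add, hos]
    have sC1 : σ C1 = X2 ^ 2 * Ly u v e y (σ y) * σ y / y ^ 2 := by
      rw [hC1, hX2]
      simp only [map_add, map_mul, map_pow, map_div₀, sL', hy, s2, hsu]
      rw [← map_add, hos]
    have A1M : σ (σ A1) = A1 := by
      rw [hA1, ← hO]
      simp only [map_add, map_mul, map_pow, map_div₀, map_one, sL, sL', hy, u2, O2]
    have B1M : σ (σ B1) = B1 := by
      have h1 : σ (σ (σ B1)) = σ B1 := by
        rw [sB1]
        simp only [map_mul, map_pow, map_div₀, sL, sL', hy, X12]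
      exact σ.injective h1
    have C1M : σ (σ C1) = C1 := by
      have h1 : σ (σ (σ C1)) = σ C1 := by
        rw [sC1]
        simp only [map_mul, map_pow, map_div₀, sL, sL', hy, X22]
      exact σ.injective h1
    have A1sM : σ (σ (A1 ^ 2)) = A1 ^ 2 := by rw [map_pow, map_pow, A1M]
    have C1sM : σ (σ (C1 ^ 2)) = C1 ^ 2 := by rw [map_pow, map_pow, C1M]
    have sB1M : σ (σ (σ B1)) = σ B1 := by rw [B1M]
    have sC1M : σ (σ (σ C1)) = σ C1 := by rw [C1M]
    have step1 : pM σ χ (A1 ^ 2 + B1 + C1 ^ 2) = pM σ χ (A1 + σ B1 + σ C1) := by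
      rw [pM_add hS (by rw [map_add, map_add, A1sM, B1M]) C1sM, pM_add hS A1sM B1M,
        pM_sq hS A1M, pM_sq hS C1M,
        pM_add hS (by rw [map_add, map_add, A1M, sB1M]) sC1M, pM_add hS A1M sB1M,
        pM_conj hS B1M, pM_conj hS C1M]
    rw [step1, hA1, sB1, sC1, ← hO, theta2 he he0 hy0]
    have rM : σ (σ (σ y / y)) = σ y / y := by
      rw [map_div₀, map_div₀, hy]
    have q1 : σ (σ (al1 u v e X1 X2 O * (σ y / y))) = al1 u v e X1 X2 O * (σ y / y) := by
      rw [map_mul, map_mul, al1M, rM]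
    have q2 : σ (σ (rh u v e X1 X2 * (σ y / y))) = rh u v e X1 X2 * (σ y / y) := by
      rw [map_mul, map_mul, rhM, rM]
    have q3 : σ (σ ((rh u v e X1 X2 * (σ y / y)) ^ 2)) = (rh u v e X1 X2 * (σ y / y)) ^ 2 := by
      rw [map_pow, map_pow, q2]
    have q4 : σ (σ (al0 u e X1 O + al1 u v e X1 X2 O * (σ y / y))) =
        al0 u e X1 O + al1 u v e X1 X2 O * (σ y / y) := by
      rw [map_add, map_add, al0M, q1]
    rw [pM_add hS q4 q3, pM_sq hS q2, ← pM_add hS q4 q2]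
    have q5 : al0 u e X1 O + al1 u v e X1 X2 O * (σ y / y) + rh u v e X1 X2 * (σ y / y) =
        al0 u e X1 O + k * (σ y / y) := by rw [hk]; ring
    rw [q5]
    unfold pM
    rw [map_add, map_mul, map_div₀, hy]
    congr 1
    ring
  -- the triple sum
  set n : ℤ := ((MM σ).card : ℤ) with hn
  have h0M : (0 : K) ∈ MM σ := by rw [mem_MM, map_zero, map_zero]
  have hnpos : 0 < n := by
    rw [hn]; exact_mod_cast Finset.card_pos.mpr ⟨0, h0M⟩
  have o4 : σ (σ (σ (σ (o ^ 2)))) = o ^ 2 := by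
    rw [map_pow, map_pow, map_pow, map_pow, hoo, map_add, map_add, hoo, map_one, map_one]
    (rw [← sub_eq_zero]; ring_nf; simp only [ofNat_even, ofNat_odd, Nat.reduceMod,
        mul_zero, zero_mul, mul_one, one_mul, add_zero, zero_add, neg_zero, sub_zero, sub_self])
  have hT1 : ∑ y ∈ MM σ, ∑ b ∈ MM σ, ∑ a ∈ MM σ, pM σ χ (y ^ 2 * HH σ (l ^ 4) (a + o ^ 2 * b)) =
      n := by
    rw [Finset.sum_comm]
    have : ∀ b ∈ MM σ, ∑ y ∈ MM σ, ∑ a ∈ MM σ, pM σ χ (y ^ 2 * HH σ (l ^ 4) (a + o ^ 2 * b)) =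
        ∑ a ∈ MM σ, ∑ y ∈ MM σ, pM σ χ (y ^ 2 * HH σ (l ^ 4) (a + o ^ 2 * b)) :=
      fun b _ => Finset.sum_comm
    rw [Finset.sum_congr rfl this]
    have hz : ∀ b ∈ MM σ, ∀ a ∈ MM σ, ¬ (b = 0 ∧ a = 0) →
        ∑ y ∈ MM σ, pM σ χ (y ^ 2 * HH σ (l ^ 4) (a + o ^ 2 * b)) = 0 := by
      intro b hb' a ha hab
      rw [mem_MM] at hb' ha
      have hc4 : σ (σ (σ (σ (a + o ^ 2 * b)))) = a + o ^ 2 * b := by
        rw [map_add, map_add, map_add, map_add, map_mul, map_mul, map_mul, map_mul, o4, ha, ha,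
          hb', hb']
      have hc0 : a + o ^ 2 * b ≠ 0 := by
        intro h
        have h1 := congrArg (fun z => σ (σ z)) h
        simp only [map_add, map_mul, map_pow, map_zero, ha, hb', hoo] at h1
        have hb0 : b = 0 := by
          linear_combination h1 - h - (o * b) * two
        apply hab
        refine ⟨hb0, ?_⟩
        rw [hb0] at h
        simpa using h
      have hH0 := hcon _ hc4 hc0
      have hHM : σ (σ (HH σ (l ^ 4) (a + o ^ 2 * b))) = HH σ (l ^ 4) (a + o ^ 2 * b) := by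
        generalize a + o ^ 2 * b = c at hc4
        unfold HH
        simp only [map_add, map_mul, map_pow, hc4, hl4]
        ring
      obtain ⟨h', hh'⟩ := exists_sqrt (HH σ (l ^ 4) (a + o ^ 2 * b))
      have hh'M : σ (σ h') = h' := by
        apply sq_inj
        rw [← map_pow, ← map_pow, hh', hHM]
      have hh'0 : h' ≠ 0 := by
        intro h; rw [h] at hh'; apply hH0; rw [← hh']; ring
      rw [← orth hS hs hh'M hh'0]
      refine Finset.sum_congr rfl fun y hy => ?_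
      rw [mem_MM] at hy
      rw [← hh', ← mul_pow, pM_sq hS (by rw [map_mul, map_mul, hy, hh'M])]
    rw [Finset.sum_eq_single_of_mem 0 h0M, Finset.sum_eq_single_of_mem 0 h0M]
    · have : ∀ y ∈ MM σ, pM σ χ (y ^ 2 * HH σ (l ^ 4) (0 + o ^ 2 * 0)) = 1 := by
        intro y _
        have : HH σ (l ^ 4) (0 + o ^ 2 * 0) = 0 := by
          unfold HH; simp
        rw [this, mul_zero, pM_zero hS]
      rw [Finset.sum_congr rfl this, Finset.sum_const, nsmul_eq_mul, mul_one]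
    · intro a ha ha0
      exact hz 0 h0M a ha (fun h => ha0 h.2)
    · intro b hb' hb0
      exact Finset.sum_eq_zero fun a ha => hz b hb' a ha (fun h => hb0 h.1)
  -- the inner sum over `a`
  have hinner : ∀ y ∈ MM σ, ∀ b ∈ MM σ,
      ∑ a ∈ MM σ, pM σ χ (y ^ 2 * HH σ (l ^ 4) (a + o ^ 2 * b)) =
      pM σ χ (y ^ 2 * hb u l2 o s b (σ b)) *
        if y + (y * u ^ 2 + σ y * v ^ 2) + (y ^ 2 * b + (y ^ 2 * b * u ^ 4 +
          σ y ^ 2 * σ b * v ^ 4)) = 0 then n else 0 := by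
    intro y hy b hb'
    rw [mem_MM] at hy hb'
    have hhb : σ (σ (hb u l2 o s b (σ b))) = hb u l2 o s b (σ b) := by
      have e5 : l = l2 + u := by rw [hu]; linear_combination -l2 * two
      unfold hb
      simp only [map_add, map_mul, map_pow, map_one, u2, hb', hoo, hss, s2, hl3s]
      rw [e5]
      (rw [← sub_eq_zero]; ring_nf; simp only [ofNat_even, ofNat_odd, Nat.reduceMod,
        mul_zero, zero_mul, mul_one, one_mul, add_zero, zero_add, neg_zero, sub_zero, sub_self])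
    have hterm : ∀ a ∈ MM σ, pM σ χ (y ^ 2 * HH σ (l ^ 4) (a + o ^ 2 * b)) =
        pM σ χ (y ^ 2 * hb u l2 o s b (σ b)) * pM σ χ (a * (y + (y * u ^ 2 + σ y * v ^ 2) +
          (y ^ 2 * b + (y ^ 2 * b * u ^ 4 + σ y ^ 2 * σ b * v ^ 4)))) := by
      intro a ha
      rw [mem_MM] at ha
      have hexp := HH_exp σ (lam := l ^ 4) (l0 := l) (l1 := l1) (l2 := l2) (l3 := l3) (o := o)
        (s := s) (a := a) (a' := σ a) (b := b) (b' := σ b) rfl s0 s1 ho hs rfl ha rfl hb'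
      rw [← hu] at hexp
      rw [hexp]
      have g1 : σ (σ (y * (a + u ^ 2 * (a + σ a)))) = y * (a + u ^ 2 * (a + σ a)) := by
        simp only [map_add, map_mul, map_pow, hy, ha, u2]
      have g2 : σ (σ (y ^ 2 * b * (a + u ^ 4 * (a + σ a)))) =
          y ^ 2 * b * (a + u ^ 4 * (a + σ a)) := by
        simp only [map_add, map_mul, map_pow, hy, ha, u2, hb']
      have g3 : σ (σ (y ^ 2 * hb u l2 o s b (σ b))) = y ^ 2 * hb u l2 o s b (σ b) := by
        rw [map_mul, map_mul, hhb, map_pow, map_pow, hy]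
      have g1' : σ (σ ((y * (a + u ^ 2 * (a + σ a))) ^ 2)) =
          (y * (a + u ^ 2 * (a + σ a))) ^ 2 := by
        rw [map_pow, map_pow, g1]
      have e3 : y ^ 2 * ((a + u ^ 2 * (a + σ a)) ^ 2 + b * (a + u ^ 4 * (a + σ a)) +
          hb u l2 o s b (σ b)) = (y * (a + u ^ 2 * (a + σ a))) ^ 2 +
          y ^ 2 * b * (a + u ^ 4 * (a + σ a)) + y ^ 2 * hb u l2 o s b (σ b) := by ring
      have g12 : σ (σ ((y * (a + u ^ 2 * (a + σ a))) ^ 2 +
          y ^ 2 * b * (a + u ^ 4 * (a + σ a)))) = (y * (a + u ^ 2 * (a + σ a))) ^ 2 +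
          y ^ 2 * b * (a + u ^ 4 * (a + σ a)) := by
        rw [map_add, map_add, g1', g2]
      rw [e3, pM_add hS g12 g3, pM_add hS g1' g2, pM_sq hS g1]
      have u22 : σ (σ (u ^ 2)) = u ^ 2 := by rw [map_pow, map_pow, u2]
      have u42 : σ (σ (u ^ 4)) = u ^ 4 := by rw [map_pow, map_pow, u2]
      have yb2 : σ (σ (y ^ 2 * b)) = y ^ 2 * b := by rw [map_mul, map_mul, map_pow, map_pow, hy, hb']
      rw [pM_lin hS ha hy u22, pM_lin hS ha yb2 u42, map_pow, map_pow, map_mul, map_pow, hsu]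
      have g4 : σ (σ (a * (y + (y * u ^ 2 + σ y * v ^ 2)))) =
          a * (y + (y * u ^ 2 + σ y * v ^ 2)) := by
        simp only [map_add, map_mul, map_pow, hy, ha, u2, v2]
      have g5 : σ (σ (a * (y ^ 2 * b + (y ^ 2 * b * u ^ 4 + σ y ^ 2 * σ b * v ^ 4)))) =
          a * (y ^ 2 * b + (y ^ 2 * b * u ^ 4 + σ y ^ 2 * σ b * v ^ 4)) := by
        simp only [map_add, map_mul, map_pow, hy, ha, u2, v2, hb']
      rw [← pM_add hS g4 g5, mul_comm, ← mul_add]
    rw [Finset.sum_congr rfl hterm, ← Finset.mul_sum]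
    congr 1
    split_ifs with hif
    · rw [hif]
      simp only [mul_zero]
      rw [Finset.sum_congr rfl (fun a _ => pM_zero hS), Finset.sum_const, nsmul_eq_mul, mul_one]
    · refine orth hS hs ?_ hif
      simp only [map_add, map_mul, map_pow, hy, u2, v2, hb']
  rw [Finset.sum_congr rfl (fun y hy => Finset.sum_congr rfl (fun b hb' => hinner y hy b hb'))]
    at hT1
  -- split `y = 0`
  rw [← Finset.add_sum_erase _ _ h0M] at hT1
  have hy0 : ∑ b ∈ MM σ, (pM σ χ ((0 : K) ^ 2 * hb u l2 o s b (σ b)) *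
        if (0 : K) + (0 * u ^ 2 + σ 0 * v ^ 2) + (0 ^ 2 * b + (0 ^ 2 * b * u ^ 4 +
          σ 0 ^ 2 * σ b * v ^ 4)) = 0 then n else 0) = n * n := by
    have : ∀ b ∈ MM σ, (pM σ χ ((0 : K) ^ 2 * hb u l2 o s b (σ b)) *
        if (0 : K) + (0 * u ^ 2 + σ 0 * v ^ 2) + (0 ^ 2 * b + (0 ^ 2 * b * u ^ 4 +
          σ 0 ^ 2 * σ b * v ^ 4)) = 0 then n else 0) = n := by
      intro b _
      rw [if_pos (by rw [map_zero]; ring), zero_pow two_ne_zero, zero_mul, pM_zero hS, one_mul]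
    rw [Finset.sum_congr rfl this, Finset.sum_const, nsmul_eq_mul]
  rw [hy0] at hT1
  have hyn : ∀ y ∈ (MM σ).erase 0, ∑ b ∈ MM σ, (pM σ χ (y ^ 2 * hb u l2 o s b (σ b)) *
        if y + (y * u ^ 2 + σ y * v ^ 2) + (y ^ 2 * b + (y ^ 2 * b * u ^ 4 +
          σ y ^ 2 * σ b * v ^ 4)) = 0 then n else 0) =
      χ ((al0 u e X1 O + σ (al0 u e X1 O)) + k * (σ y / y) + σ k * (y / σ y)) * n := by
    intro y hy
    have hyM := Finset.mem_of_mem_erase hy
    have hyne := (Finset.mem_erase.mp hy).1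
    have hy2 := mem_MM.mp hyM
    have hsy0 : σ y ≠ 0 := by rw [Ne, map_eq_zero]; exact hyne
    have sL : σ (Ly u v e y (σ y)) = Ly v u e (σ y) y := by
      simp only [Ly, map_add, map_mul, map_pow, map_div₀, map_one, hsu, hsv, hse, hy2]
    have sL' : σ (Ly v u e (σ y) y) = Ly u v e y (σ y) := by
      simp only [Ly, map_add, map_mul, map_pow, map_div₀, map_one, hsu, hsv, hse, hy2]
    have sb : σ (Ly u v e y (σ y) / y ^ 2) = Ly v u e (σ y) y / σ y ^ 2 := by
      rw [map_div₀, map_pow, sL]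
    have hbM : Ly u v e y (σ y) / y ^ 2 ∈ MM σ := by
      rw [mem_MM, sb, map_div₀, map_pow, sL', hy2]
    rw [Finset.sum_eq_single_of_mem _ hbM]
    · have hadj := (adj_iff (y := y) (y' := σ y) (z := Ly u v e y (σ y))
        (z' := Ly v u e (σ y) y) he he0).mpr ⟨rfl, rfl⟩
      rw [sb, if_pos, hTheta y hyM hyne]
      have c1 : y ^ 2 * (Ly u v e y (σ y) / y ^ 2) = Ly u v e y (σ y) := by field_simp
      have c2 : σ y ^ 2 * (Ly v u e (σ y) y / σ y ^ 2) = Ly v u e (σ y) y := by field_simp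
      rw [c1, c2]
      exact hadj.1
    · intro b hb' hbne
      rw [mem_MM] at hb'
      rw [if_neg, mul_zero]
      intro hadj
      apply hbne
      have hadj' := congrArg σ hadj
      simp only [map_add, map_mul, map_pow, map_zero, hy2, hb', hsu, hsv] at hadj'
      have := (adj_iff (y := y) (y' := σ y) (z := y ^ 2 * b) (z' := σ y ^ 2 * σ b) he he0).mp
        ⟨hadj, by linear_combination hadj'⟩
      rw [← this.1]
      field_simp
  rw [Finset.sum_congr rfl hyn, ← Finset.sum_mul] at hT1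
  -- conclusion
  have hfixA : σ (al0 u e X1 O + σ (al0 u e X1 O)) = al0 u e X1 O + σ (al0 u e X1 O) :=
    fixM al0M
  obtain ⟨y1, hy1M, hy10, hy1⟩ := pigeon hS hMF hfixA kM hk0
  have hsum : n + ∑ y ∈ (MM σ).erase 0,
      χ ((al0 u e X1 O + σ (al0 u e X1 O)) + k * (σ y / y) + σ k * (y / σ y)) = 1 := by
    have h1 : n * (n + ∑ y ∈ (MM σ).erase 0,
      χ ((al0 u e X1 O + σ (al0 u e X1 O)) + k * (σ y / y) + σ k * (y / σ y))) = n * 1 := by
      rw [mul_one]; linear_combination hT1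
    exact mul_left_cancel₀ hnpos.ne' h1
  have hcardE : (((MM σ).erase 0).card : ℤ) = n - 1 := by
    rw [Finset.card_erase_of_mem h0M, Nat.cast_sub (Finset.card_pos.mpr ⟨0, h0M⟩)]
    rw [hn]; simp
  have hy1E : y1 ∈ (MM σ).erase 0 := Finset.mem_erase.mpr ⟨hy10, hy1M⟩
  have hsum2 : ∑ y ∈ (MM σ).erase 0,
      (χ ((al0 u e X1 O + σ (al0 u e X1 O)) + k * (σ y / y) + σ k * (y / σ y)) + 1) = 0 := by
    rw [Finset.sum_add_distrib, Finset.sum_const, nsmul_eq_mul, mul_one, hcardE]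
    linarith
  have hnonneg : ∀ y ∈ (MM σ).erase 0,
      0 ≤ (χ ((al0 u e X1 O + σ (al0 u e X1 O)) + k * (σ y / y) + σ k * (y / σ y)) + 1) := by
    intro y hy
    have hy2 := mem_MM.mp (Finset.mem_of_mem_erase hy)
    have hfix : σ ((al0 u e X1 O + σ (al0 u e X1 O)) + k * (σ y / y) + σ k * (y / σ y)) =
        (al0 u e X1 O + σ (al0 u e X1 O)) + k * (σ y / y) + σ k * (y / σ y) := by
      rw [map_add, map_add, hfixA, map_mul, map_mul, map_div₀, map_div₀, kM, hy2]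
      ring
    rcases hS.pm _ hfix with h | h <;> rw [h] <;> norm_num
  have := (Finset.sum_eq_zero_iff_of_nonneg hnonneg).mp hsum2 y1 hy1E
  rw [hy1] at this
  norm_num at this

end

theorem stmA_of (hI : StmInd) : StmA := by
  intro K _ _ _ σ χ hS lam h4 h0 h1 htr
  classical
  obtain ⟨-, -, -, -, ⟨o, s, ho, hs⟩, hMF⟩ := hI K σ hS.h8 hS.h4
  obtain ⟨r, hr⟩ := exists_sqrt lam
  obtain ⟨l, hl⟩ := exists_sqrt r
  have hlam : lam = l ^ 4 := by rw [← hr, ← hl]; ring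
  have hl4 : σ (σ (σ (σ l))) = l := by
    apply sq_inj
    apply sq_inj
    have e : ∀ x : K, (x ^ 2) ^ 2 = x ^ 4 := fun x => by ring
    rw [e, e, ← map_pow, ← map_pow, ← map_pow, ← map_pow, ← hlam, h4]
  subst hlam
  refine stmA_core hS hMF ho hs hl4 ?_ ?_ htr
  · rintro rfl; apply h0; ring
  · rintro rfl; apply h1; ring

end Pool.Agent.R793.MR
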