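import Pool.Agent.R793.MR.Stm

set_option autoImplicit false

open Finset

namespace Pool.Agent.R793.MR

section alg
variable {K : Type} [Field K] [CharP K 2]

theorem ofNat_even (n : ℕ) [n.AtLeastTwo] (h : n % 2 = 0) :
    (OfNat.ofNat n : K) = 0 := by
  have h1 : ((n : ℕ) : K) = 0 := (CharP.cast_eq_zero_iff K 2 n).mpr (Nat.dvd_of_mod_eq_zero h)
  rw [← h1]
  rfl

theorem ofNat_odd (n : ℕ) [n.AtLeastTwo] (h : n % 2 = 1) :
    (OfNat.ofNat n : K) = 1 := by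
  have h1 : (((n - 1 : ℕ)) : K) = 0 :=
    (CharP.cast_eq_zero_iff K 2 (n - 1)).mpr (Nat.dvd_of_mod_eq_zero (by omega))
  have h2 : ((n : ℕ) : K) = ((n - 1 : ℕ) : K) + 1 := by
    have : n = (n - 1) + 1 := by omega
    conv_lhs => rw [this]
    push_cast
    ring
  rw [h1, zero_add] at h2
  rw [← h2]
  rfl

end alg

section alg
variable {K : Type} [Field K] [CharP K 2]

/-- `h b` -/
def hb (u l2 o s b b' : K) : K :=
  (o ^ 4 + o ^ 2) * (1 + u ^ 4) * b ^ 2 + (l2 ^ 4 + u ^ 4 * (o + s) ^ 2) * (b * b')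
    + (l2 ^ 4 + u ^ 4 * (o + s) ^ 4) * b' ^ 2

theorem HH_exp (σ : K ≃+* K) {lam l0 l1 l2 l3 o s a a' b b' : K} (hlam : lam = l0 ^ 4)
    (h0 : σ l0 = l1) (h1 : σ l1 = l2) (ho : σ o = o + s) (hs : σ s = s + 1)
    (ha : σ a = a') (ha' : σ a' = a) (hb0 : σ b = b') (hb' : σ b' = b) :
    HH σ lam (a + o ^ 2 * b) = (a + (l0 + l2) ^ 2 * (a + a')) ^ 2
      + b * (a + (l0 + l2) ^ 4 * (a + a')) + hb (l0 + l2) l2 o s b b' := by
  unfold HH hb
  subst hlam
  simp only [map_add, map_mul, map_pow, h0, h1, ho, hs, ha, ha', hb0, hb', map_one]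
  (rw [← sub_eq_zero]; ring_nf; simp only [ofNat_even, ofNat_odd, Nat.reduceMod,
        mul_zero, zero_mul, mul_one, one_mul, add_zero, zero_add, neg_zero, sub_zero, sub_self])

end alg
end Pool.Agent.R793.MR
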