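import Pool.Agent.R793.MR.AAlg

set_option autoImplicit false

open Finset

namespace Pool.Agent.R793.MR

section alg
variable {K : Type} [Field K] [CharP K 2]

/-- `L y` -/
def Ly (u v e y y' : K) : K := y * (1 + (u ^ 2 + u ^ 4) / e ^ 2) + y' * ((v ^ 2 + v ^ 4) / e ^ 2)

theorem theta1 {u v e l2 o s y y' : K} (hy : y ≠ 0) (hy' : y' ≠ 0) :
    y ^ 2 * hb u l2 o s (Ly u v e y y' / y ^ 2) (Ly v u e y' y / y' ^ 2) =
      ((o ^ 2 + o) * (1 + u ^ 2) * Ly u v e y y' / y) ^ 2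
      + (l2 ^ 2 + u ^ 2 * (o + s)) ^ 2 * Ly u v e y y' * Ly v u e y' y / y' ^ 2
      + ((l2 + u * (o + s)) ^ 2 * Ly v u e y' y * y / y' ^ 2) ^ 2 := by
  unfold hb
  generalize Ly u v e y y' = A
  generalize Ly v u e y' y = B
  field_simp
  (rw [← sub_eq_zero]; ring_nf; simp only [ofNat_even, ofNat_odd, Nat.reduceMod,
        mul_zero, zero_mul, mul_one, one_mul, add_zero, zero_add, neg_zero, sub_zero, sub_self])

/-- `α₀` -/
def al0 (u e X1 O : K) : K :=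
  O * (1 + u ^ 2) * (1 + (u ^ 2 + u ^ 4) / e ^ 2)
    + X1 ^ 2 * ((1 + (u ^ 2 + u ^ 4) / e ^ 2) * ((u ^ 2 + u ^ 4) / e ^ 2))

/-- `α₁` -/
def al1 (u v e X1 X2 O : K) : K :=
  O * (1 + u ^ 2) * ((v ^ 2 + v ^ 4) / e ^ 2) + X1 ^ 2 / e
    + X2 ^ 2 * (1 + (u ^ 2 + u ^ 4) / e ^ 2)

/-- `ρ` -/
def rh (u v e X1 X2 : K) : K := ((v + v ^ 2) / e) * (X1 * (1 + u ^ 2 + v) / e + X2)

theorem theta2 {u v e X1 X2 O y y' : K} (he : e = 1 + u ^ 2 + v ^ 2) (he0 : e ≠ 0) (hy : y ≠ 0) :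
    O * (1 + u ^ 2) * Ly u v e y y' / y + X1 ^ 2 * Ly v u e y' y * Ly u v e y y' / y ^ 2
      + X2 ^ 2 * Ly u v e y y' * y' / y ^ 2 =
    al0 u e X1 O + al1 u v e X1 X2 O * (y' / y) + (rh u v e X1 X2 * (y' / y)) ^ 2 := by
  unfold Ly al0 al1 rh
  have he' : 1 + u ^ 2 + v ^ 2 ≠ 0 := he ▸ he0
  subst he
  field_simp
  (rw [← sub_eq_zero]; ring_nf; simp only [ofNat_even, ofNat_odd, Nat.reduceMod,
        mul_zero, zero_mul, mul_one, one_mul, add_zero, zero_add, neg_zero, sub_zero, sub_self])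

theorem kval {u v e l3 o : K} (he : e = 1 + u ^ 2 + v ^ 2) (he0 : e ≠ 0) :
    al1 u v e (l3 ^ 2 + v ^ 2 * (o + 1)) (l3 + v * (o + 1)) (o ^ 2 + o)
      + rh u v e (l3 ^ 2 + v ^ 2 * (o + 1)) (l3 + v * (o + 1)) =
    l3 * (l3 + 1) * ((l3 + v) * (l3 + v + 1)) / e := by
  unfold al1 rh
  have he' : 1 + u ^ 2 + v ^ 2 ≠ 0 := he ▸ he0
  subst he
  field_simp
  (rw [← sub_eq_zero]; ring_nf; simp only [ofNat_even, ofNat_odd, Nat.reduceMod,
        mul_zero, zero_mul, mul_one, one_mul, add_zero, zero_add, neg_zero, sub_zero, sub_self])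

/-- the adjoint condition -/
theorem adj_iff {u v e y y' z z' : K} (he : e = 1 + u ^ 2 + v ^ 2) (he0 : e ≠ 0) :
    (y + (y * u ^ 2 + y' * v ^ 2) + (z + (z * u ^ 4 + z' * v ^ 4)) = 0 ∧
      y' + (y * u ^ 2 + y' * v ^ 2) + (z' + (z * u ^ 4 + z' * v ^ 4)) = 0) ↔
    (z = Ly u v e y y' ∧ z' = Ly v u e y' y) := by
  have h2 : (2 : K) = 0 := CharP.cast_eq_zero K 2
  have e2 : e ^ 2 = 1 + u ^ 4 + v ^ 4 := by subst he; (rw [← sub_eq_zero]; ring_nf; simp only [ofNat_even, ofNat_odd, Nat.reduceMod,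
        mul_zero, zero_mul, mul_one, one_mul, add_zero, zero_add, neg_zero, sub_zero, sub_self])
  have he2 : e ^ 2 ≠ 0 := pow_ne_zero 2 he0
  constructor
  · rintro ⟨h, h'⟩
    obtain ⟨S, hS⟩ : ∃ S, S = (y * u ^ 2 + y' * v ^ 2) + (z * u ^ 4 + z' * v ^ 4) := ⟨_, rfl⟩
    have hz : z = y + S := by rw [hS]; linear_combination h - (y + ((y * u ^ 2 + y' * v ^ 2) +
      (z * u ^ 4 + z' * v ^ 4))) * h2
    have hz' : z' = y' + S := by rw [hS]; linear_combination h' - (y' + ((y * u ^ 2 + y' * v ^ 2) +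
      (z * u ^ 4 + z' * v ^ 4))) * h2
    have hS2 : S * e ^ 2 = y * (u ^ 2 + u ^ 4) + y' * (v ^ 2 + v ^ 4) := by
      rw [e2]
      rw [hz, hz'] at hS
      linear_combination hS + (u ^ 4 * S + v ^ 4 * S) * h2
    have hS3 : S = (y * (u ^ 2 + u ^ 4) + y' * (v ^ 2 + v ^ 4)) / e ^ 2 := by
      rw [← hS2]; field_simp
    constructor
    · rw [hz, hS3]; unfold Ly; ring
    · rw [hz', hS3]; unfold Ly; ring
  · rintro ⟨h, h'⟩
    obtain ⟨S, hS⟩ : ∃ S, S = (y * (u ^ 2 + u ^ 4) + y' * (v ^ 2 + v ^ 4)) / e ^ 2 := ⟨_, rfl⟩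
    have hz : z = y + S := by rw [h, hS]; unfold Ly; ring
    have hz' : z' = y' + S := by rw [h', hS]; unfold Ly; ring
    have hS2 : S * (1 + u ^ 4 + v ^ 4) = y * (u ^ 2 + u ^ 4) + y' * (v ^ 2 + v ^ 4) := by
      rw [← e2, hS]; field_simp
    rw [hz, hz']
    constructor
    · linear_combination hS2 + (y + (y * u ^ 2 + y' * v ^ 2) + (y * u ^ 4 + y' * v ^ 4)) * h2
    · linear_combination hS2 + (y' + (y * u ^ 2 + y' * v ^ 2) + (y * u ^ 4 + y' * v ^ 4)) * h2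

end alg
end Pool.Agent.R793.MR
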