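import Pool.Agent.R793.MR.AAlg2

set_option autoImplicit false

open Finset

namespace Pool.Agent.R793.MR

section
variable {K : Type} [Field K] [Fintype K] [CharP K 2] {σ : K ≃+* K} {χ : K → ℤ}

/-- The character of the fixed field of `σ²`. -/
def pM (σ : K ≃+* K) (χ : K → ℤ) (x : K) : ℤ := χ (x + σ x)

/-- The fixed field of `σ²`. -/
def MM [DecidableEq K] (σ : K ≃+* K) : Finset K := univ.filter (fun x => σ (σ x) = x)

theorem two_zero : (2 : K) = 0 := CharP.cast_eq_zero K 2

theorem addself (x : K) : x + x = 0 := by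
  have := two_zero (K := K)
  linear_combination x * this

theorem fixM {x : K} (hx : σ (σ x) = x) : σ (x + σ x) = x + σ x := by
  rw [map_add, hx, add_comm]

variable (hS : Setup σ χ)
include hS

theorem chi_zero : χ 0 = 1 := (hS.one 0 (map_zero σ)).mpr ⟨0, map_zero σ, by ring⟩

theorem pM_zero : pM σ χ 0 = 1 := by
  unfold pM; rw [map_zero, add_zero]; exact chi_zero hS

theorem pM_add {x y : K} (hx : σ (σ x) = x) (hy : σ (σ y) = y) :
    pM σ χ (x + y) = pM σ χ x * pM σ χ y := by
  unfold pM
  rw [← hS.add _ _ (fixM hx) (fixM hy), map_add]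
  congr 1
  ring

theorem pM_sq {x : K} (hx : σ (σ x) = x) : pM σ χ (x ^ 2) = pM σ χ x := by
  unfold pM
  rw [← hS.sq _ (fixM hx), map_pow]
  congr 1
  have := two_zero (K := K)
  linear_combination -(x * σ x) * this

theorem pM_conj {x : K} (hx : σ (σ x) = x) : pM σ χ (σ x) = pM σ χ x := by
  unfold pM
  rw [hx, add_comm]

theorem pM_pm {x : K} (hx : σ (σ x) = x) : pM σ χ x = 1 ∨ pM σ χ x = -1 := hS.pm _ (fixM hx)

omit hS in
theorem sum_shift (T : Finset K) (a0 : K) (hT : ∀ a ∈ T, a + a0 ∈ T) (g : K → ℤ) :
    ∑ a ∈ T, g (a + a0) = ∑ a ∈ T, g a := by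
  refine Finset.sum_nbij' (fun a => a + a0) (fun a => a + a0) hT hT ?_ ?_ ?_
  · intro a _
    rw [add_assoc, addself, add_zero]
  · intro a _
    rw [add_assoc, addself, add_zero]
  · intro a _; rfl

omit hS in
theorem mem_MM [DecidableEq K] {x : K} : x ∈ MM σ ↔ σ (σ x) = x := by
  unfold MM; simp

theorem orth [DecidableEq K] {s : K} (hs : σ s = s + 1) {v : K} (hv : σ (σ v) = v) (hv0 : v ≠ 0) :
    ∑ a ∈ MM σ, pM σ χ (a * v) = 0 := by
  obtain ⟨f, hf, hf1⟩ := hS.neg
  have hss : σ (σ s) = s := by
    rw [hs, map_add, hs, map_one, add_assoc, addself, add_zero]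
  have ha0 : σ (σ (f * s / v)) = f * s / v := by
    rw [map_div₀, map_div₀, map_mul, map_mul, hf, hf, hss, hv]
  have h1 := sum_shift (MM σ) (f * s / v) (by
    intro a ha
    rw [mem_MM] at ha ⊢
    rw [map_add, map_add, ha, ha0]) (fun a => pM σ χ (a * v))
  have h2 : ∑ a ∈ MM σ, pM σ χ ((a + f * s / v) * v) = ∑ a ∈ MM σ, (-1) * pM σ χ (a * v) := by
    refine Finset.sum_congr rfl fun a ha => ?_
    rw [mem_MM] at ha
    have e : (a + f * s / v) * v = a * v + f * s := by field_simp
    have h3 : σ (σ (a * v)) = a * v := by rw [map_mul, map_mul, ha, hv]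
    have h4 : σ (σ (f * s)) = f * s := by rw [map_mul, map_mul, hf, hf, hss]
    rw [e, pM_add hS h3 h4]
    have h5 : pM σ χ (f * s) = -1 := by
      unfold pM
      rw [map_mul, hf, hs]
      have : f * s + f * (s + 1) = f := by
        have h := two_zero (K := K)
        linear_combination (f * s) * h
      rw [this, hf1]
    rw [h5]; ring
  rw [h2, ← Finset.mul_sum] at h1
  linarith

omit hS in
theorem exists_sqrt (x : K) : ∃ r, r ^ 2 = x := by
  have hinj : Function.Injective (fun r : K => r ^ 2) := by
    intro a b hab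
    simp only at hab
    have h : (a + b) ^ 2 = 0 := by
      have h2 := two_zero (K := K)
      linear_combination hab + (b ^ 2 + a * b) * h2
    have h3 : a + b = 0 := pow_eq_zero_iff (two_ne_zero) |>.1 h
    have h2 := two_zero (K := K)
    linear_combination h3 - b * h2
  obtain ⟨r, hr⟩ := (Finite.injective_iff_surjective.mp hinj) x
  exact ⟨r, hr⟩

omit hS in
theorem sq_inj {a b : K} (hab : a ^ 2 = b ^ 2) : a = b := by
  have h : (a + b) ^ 2 = 0 := by
    have h2 := two_zero (K := K)
    linear_combination hab + (b ^ 2 + a * b) * h2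
  have h3 : a + b = 0 := pow_eq_zero_iff (two_ne_zero) |>.1 h
  have h2 := two_zero (K := K)
  linear_combination h3 - b * h2

theorem half [DecidableEq K] : 2 * ((FF σ).filter (fun x => χ x = -1)).card = (FF σ).card := by
  obtain ⟨f, hf, hf1⟩ := hS.neg
  have h1 := Finset.card_filter_add_card_filter_not (s := FF σ) (fun x => χ x = -1)
  have h2 : ((FF σ).filter (fun x => χ x = -1)).card =
      ((FF σ).filter (fun x => ¬ χ x = -1)).card := by
    refine Finset.card_nbij' (fun a => a + f) (fun a => a + f) ?_ ?_ ?_ ?_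
    · intro a ha
      simp only [Finset.coe_filter, Set.mem_setOf_eq, FF, Finset.mem_filter, Finset.mem_univ,
        true_and] at ha ⊢
      refine ⟨by rw [map_add, ha.1, hf], ?_⟩
      rw [hS.add _ _ ha.1 hf, ha.2, hf1]; norm_num
    · intro a ha
      simp only [Finset.coe_filter, Set.mem_setOf_eq, FF, Finset.mem_filter, Finset.mem_univ,
        true_and] at ha ⊢
      refine ⟨by rw [map_add, ha.1, hf], ?_⟩
      have : χ a = 1 := (hS.pm a ha.1).resolve_right ha.2
      rw [hS.add _ _ ha.1 hf, this, hf1]; norm_num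
    · intro a _
      simp only
      rw [add_assoc, addself, add_zero]
    · intro a _
      simp only
      rw [add_assoc, addself, add_zero]
  omega

theorem pigeon [DecidableEq K] (hMF : (MM σ).card = (FF σ).card ^ 2) {A k : K} (hA : σ A = A)
    (hk : σ (σ k) = k) (hk0 : k ≠ 0) :
    ∃ y ∈ MM σ, y ≠ 0 ∧ χ (A + k * (σ y / y) + σ k * (y / σ y)) = 1 := by
  by_contra hcon
  push Not at hcon
  set q := (FF σ).card with hq
  have hq2 : 2 ≤ q := by
    have : ({0, 1} : Finset K) ⊆ FF σ := by
      intro x hx
      rw [Finset.mem_insert, Finset.mem_singleton] at hx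
      unfold FF
      rw [Finset.mem_filter]
      rcases hx with rfl | rfl
      · exact ⟨Finset.mem_univ _, map_zero σ⟩
      · exact ⟨Finset.mem_univ _, map_one σ⟩
    have h := Finset.card_le_card this
    rw [Finset.card_pair zero_ne_one] at h
    exact h
  have hsk0 : σ k ≠ 0 := by
    rw [Ne, map_eq_zero]; exact hk0
  -- the number of `y` with a given ratio
  have hR : ∀ r : K, (((MM σ).erase 0).filter (fun y => σ y / y = r)).card ≤ q - 1 := by
    intro r
    rcases (((MM σ).erase 0).filter (fun y => σ y / y = r)).eq_empty_or_nonempty with h | ⟨y0, hy0⟩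
    · rw [h]; simp
    · rw [Finset.mem_filter, Finset.mem_erase] at hy0
      have h1 : (((MM σ).erase 0).filter (fun y => σ y / y = r)).card ≤ ((FF σ).erase 0).card := by
        refine Finset.card_le_card_of_injOn (fun y => y / y0) ?_ ?_
        · intro y hy
          simp only [Finset.coe_filter, Set.mem_setOf_eq, Finset.mem_erase] at hy
          simp only [Finset.coe_erase, Set.mem_diff, Finset.mem_coe, Set.mem_singleton_iff]
          refine ⟨?_, div_ne_zero hy.1.1 hy0.1.1⟩
          unfold FF
          rw [Finset.mem_filter]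
          refine ⟨Finset.mem_univ _, ?_⟩
          have e1 : σ y = r * y := by rw [← hy.2]; field_simp [hy.1.1]
          have e2 : σ y0 = r * y0 := by rw [← hy0.2]; field_simp [hy0.1.1]
          have hr0 : r ≠ 0 := by
            intro h; rw [h, zero_mul, map_eq_zero] at e1; exact hy.1.1 e1
          rw [map_div₀, e1, e2]
          field_simp
        · intro y _ y' _ h
          simp only at h
          have := hy0.1.1
          field_simp at h
          exact h
      have h2 : ((FF σ).erase 0).card = q - 1 := by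
        rw [Finset.card_erase_of_mem]
        unfold FF
        rw [Finset.mem_filter]
        exact ⟨Finset.mem_univ _, map_zero σ⟩
      omega
  have hmain := Finset.card_le_mul_card_image_of_maps_to (s := (MM σ).erase 0)
    (t := (FF σ).filter (fun x => χ x = -1))
    (f := fun y => A + k * (σ y / y) + σ k * (y / σ y)) (by
      intro y hy
      rw [Finset.mem_erase, mem_MM] at hy
      have hfix : σ (A + k * (σ y / y) + σ k * (y / σ y)) =
          A + k * (σ y / y) + σ k * (y / σ y) := by
        rw [map_add, map_add, map_mul, map_mul, map_div₀, map_div₀, hA, hk, hy.2]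
        ring
      rw [Finset.mem_filter]
      refine ⟨?_, ?_⟩
      · unfold FF
        rw [Finset.mem_filter]
        exact ⟨Finset.mem_univ _, hfix⟩
      · exact (hS.pm _ hfix).resolve_left (hcon y (mem_MM.mpr hy.2) hy.1)) (2 * (q - 1)) (by
      intro v _
      rcases (((MM σ).erase 0).filter
        (fun y => A + k * (σ y / y) + σ k * (y / σ y) = v)).eq_empty_or_nonempty with h | ⟨y1, hy1⟩
      · rw [h]; simp
      · rw [Finset.mem_filter, Finset.mem_erase] at hy1
        have hsub : (((MM σ).erase 0).filter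
            (fun y => A + k * (σ y / y) + σ k * (y / σ y) = v)) ⊆
            ((MM σ).erase 0).filter (fun y => σ y / y = σ y1 / y1) ∪
            ((MM σ).erase 0).filter (fun y => σ y / y = σ k / (k * (σ y1 / y1))) := by
          intro y hy
          rw [Finset.mem_filter, Finset.mem_erase] at hy
          rw [Finset.mem_union, Finset.mem_filter, Finset.mem_filter, Finset.mem_erase]
          have hsy : σ y ≠ 0 := by rw [Ne, map_eq_zero]; exact hy.1.1
          have hsy1 : σ y1 ≠ 0 := by rw [Ne, map_eq_zero]; exact hy1.1.1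
          have hyn := hy.1.1
          have hy1n := hy1.1.1
          have e := hy.2.trans hy1.2.symm
          obtain ⟨r, hr⟩ : ∃ r, r = σ y / y := ⟨_, rfl⟩
          obtain ⟨r1, hr1⟩ : ∃ r1, r1 = σ y1 / y1 := ⟨_, rfl⟩
          have hr0 : r ≠ 0 := by rw [hr]; exact div_ne_zero hsy hyn
          have hr10 : r1 ≠ 0 := by rw [hr1]; exact div_ne_zero hsy1 hy1n
          have er : y / σ y = r⁻¹ := by rw [hr, inv_div]
          have er1 : y1 / σ y1 = r1⁻¹ := by rw [hr1, inv_div]
          rw [er, er1, ← hr, ← hr1] at e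
          have e2 : (r - r1) * (k * (r * r1) - σ k) = 0 := by
            field_simp at e
            linear_combination e
          rcases mul_eq_zero.1 e2 with h | h
          · left
            exact ⟨hy.1, by rw [← hr, ← hr1]; exact sub_eq_zero.1 h⟩
          · right
            refine ⟨hy.1, ?_⟩
            rw [← hr, ← hr1, eq_div_iff (mul_ne_zero hk0 hr10)]
            linear_combination h
        have h1 := (Finset.card_le_card hsub).trans (Finset.card_union_le _ _)
        have h2 := hR (σ y1 / y1)
        have h3 := hR (σ k / (k * (σ y1 / y1)))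
        omega)
  have h0M : (0 : K) ∈ MM σ := by rw [mem_MM, map_zero, map_zero]
  rw [Finset.card_erase_of_mem h0M, hMF] at hmain
  have hh := half hS
  rw [← hq] at hh
  set P := ((FF σ).filter (fun x => χ x = -1)).card with hP
  have h1 : 2 * (q - 1) * P = (q - 1) * q := by rw [← hh]; ring
  rw [h1] at hmain
  obtain ⟨n, hn⟩ : ∃ n, q = n + 2 := ⟨q - 2, by omega⟩
  rw [hn] at hmain
  have e1 : (n + 2) ^ 2 - 1 = n ^ 2 + 4 * n + 3 := by
    have : (n + 2) ^ 2 = n ^ 2 + 4 * n + 3 + 1 := by ring
    omega
  have e2 : (n + 2 - 1) * (n + 2) = n ^ 2 + 3 * n + 2 := by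
    have : n + 2 - 1 = n + 1 := by omega
    rw [this]; ring
  rw [e1, e2] at hmain
  omega

end
end Pool.Agent.R793.MR
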