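import Pool.Agent.R793.MR.A
import Pool.Agent.R916.MR.CH
import Pool.Agent.R916.MR.IND
import Pool.Agent.R883.MR.B1
import Pool.Agent.R883.MR.B3
import Pool.Agent.R359.MR.C1
import Pool.Agent.R780.MR.C2
import Pool.Agent.R724.MR.D

set_option autoImplicit false

open Finset

namespace Pool.Agent.R793.MR

section
variable {K : Type} [Field K] [Fintype K] [CharP K 2] (σ : K ≃+* K)

/-- the case of trace one -/
theorem case_one (hI : StmInd) (h8 : ∀ x, σ (σ (σ (σ (σ (σ (σ (σ x))))))) = x)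
    (hne : ∃ x, σ (σ (σ (σ x))) ≠ x) {lam : K} (h4 : σ (σ (σ (σ lam))) = lam)
    (htr : tr4 σ lam = 1) :
    ∃ t, σ (σ (σ (σ t))) ≠ t ∧ (t + σ t) * (σ (σ (σ (σ t))) + σ (σ (σ (σ (σ t))))) =
      lam * ((t + σ (σ (σ (σ t)))) * (σ t + σ (σ (σ (σ (σ t)))))) := by
  classical
  have two := two_zero (K := K)
  obtain ⟨-, -, ⟨z, hz⟩, ⟨th, hth, htr1⟩, -, -⟩ := hI K σ h8 hne
  obtain ⟨D, hD⟩ := exists_sqrt lam
  have hD4 : σ (σ (σ (σ D))) = D := by
    apply sq_inj
    rw [← map_pow, ← map_pow, ← map_pow, ← map_pow, hD, h4]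
  have hDtr : D + σ D + σ (σ D) + σ (σ (σ D)) = 1 := by
    apply sq_inj
    have h1 : (D + σ D + σ (σ D) + σ (σ (σ D))) ^ 2 = tr4 σ lam := by
      unfold tr4
      rw [← hD]
      simp only [map_pow]
      (rw [← sub_eq_zero]; ring_nf; simp only [ofNat_even, ofNat_odd, Nat.reduceMod,
        mul_zero, zero_mul, mul_one, one_mul, add_zero, zero_add, neg_zero, sub_zero, sub_self])
    rw [h1, htr, one_pow]
  -- an element of trace one
  obtain ⟨Θ, hΘ⟩ : ∃ Θ, Θ = z * th := ⟨_, rfl⟩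
  have hz1 := congrArg σ hz
  have hz2 := congrArg σ hz1
  have hz3 := congrArg σ hz2
  simp only [map_add, map_one] at hz1 hz2 hz3
  have hth1 := congrArg σ hth
  have hth2 := congrArg σ hth1
  have hth3 := congrArg σ hth2
  unfold tr4 at htr1
  obtain ⟨A0, A1, A2, A3, A4, A5, A6, A7, e0, e1, e2, e3, e4, e5, e6, e7, e8⟩ :
      ∃ A0 A1 A2 A3 A4 A5 A6 A7 : K, Θ = A0 ∧ σ A0 = A1 ∧ σ A1 = A2 ∧ σ A2 = A3 ∧ σ A3 = A4 ∧
        σ A4 = A5 ∧ σ A5 = A6 ∧ σ A6 = A7 ∧ σ A7 = A0 :=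
    ⟨Θ, σ Θ, σ (σ Θ), σ (σ (σ Θ)), σ (σ (σ (σ Θ))), σ (σ (σ (σ (σ Θ)))),
      σ (σ (σ (σ (σ (σ Θ))))), σ (σ (σ (σ (σ (σ (σ Θ)))))), rfl, rfl, rfl, rfl, rfl, rfl, rfl,
      rfl, h8 Θ⟩
  have hA : A0 + A1 + A2 + A3 + A4 + A5 + A6 + A7 = 1 := by
    rw [← e7, ← e6, ← e5, ← e4, ← e3, ← e2, ← e1, ← e0, hΘ]
    simp only [map_mul, hth]
    linear_combination th * hz + σ th * hz1 + σ (σ th) * hz2 + σ (σ (σ th)) * hz3 + htr1
  obtain ⟨t, ht⟩ : ∃ t, t = D * A1 + (D + σ D) * A2 + (D + σ D + σ (σ D)) * A3 +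
      (D + σ D + σ (σ D) + σ (σ (σ D))) * A4 + (1 + D) * A5 + (1 + D + σ D) * A6 +
      (1 + D + σ D + σ (σ D)) * A7 := ⟨_, rfl⟩
  have hst : t + σ t = D := by
    rw [ht]
    simp only [map_add, map_mul, map_one, e1, e2, e3, e4, e5, e6, e7, e8, hD4]
    have hd : σ (σ (σ D)) = 1 + D + σ D + σ (σ D) := by
      linear_combination hDtr - (D + σ D + σ (σ D)) * two
    rw [hd]
    have hA0 : A0 = 1 + A1 + A2 + A3 + A4 + A5 + A6 + A7 := by
      linear_combination hA - (A1 + A2 + A3 + A4 + A5 + A6 + A7) * two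
    rw [hA0]
    (rw [← sub_eq_zero]; ring_nf; simp only [ofNat_even, ofNat_odd, Nat.reduceMod,
        mul_zero, zero_mul, mul_one, one_mul, add_zero, zero_add, neg_zero, sub_zero, sub_self])
  have hT : t + σ (σ (σ (σ t))) = 1 := by
    have g0 : σ t = t + D := by linear_combination hst - t * two
    rw [g0]
    simp only [map_add, g0]
    linear_combination hDtr + t * two
  refine ⟨t, ?_, ?_⟩
  · intro h
    rw [h, addself] at hT
    exact zero_ne_one hT
  · have h1 := congrArg σ hT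
    simp only [map_add, map_one] at h1
    have h2 : σ (σ (σ (σ t))) + σ (σ (σ (σ (σ t)))) = D := by
      have := congrArg (fun x => σ (σ (σ (σ x)))) hst
      simp only [map_add, hD4] at this
      exact this
    rw [hT, h1, hst, h2, ← hD]
    ring

end

theorem stmT_of (hCH : StmCH) (hI : StmInd) (hA : StmA) (hB1 : StmB1) (hB3 : StmB3)
    (hC1 : StmC1) (hC2 : StmC2) : StmT := by
  intro K _ _ _ σ h8 hne kap hk4 hk0
  classical
  have two := two_zero (K := K)
  by_cases hk1 : kap = 1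
  · -- `κ = 1`
    obtain ⟨-, -, -, -, ⟨w, z, hw, hz⟩, -⟩ := hI K σ h8 hne
    have hw4 : σ (σ (σ (σ w))) = w := by
      simp only [hw, hz, map_add, map_one]
      linear_combination (2 * z + 3) * two
    refine ⟨w, ?_, ?_⟩
    · intro h
      rw [hw] at h
      have hz0 : z = 0 := by linear_combination h
      rw [hz0, map_zero, zero_add] at hz
      exact zero_ne_one hz
    · rw [hk1, hw4]; ring
  · have h1k : 1 + kap ≠ 0 := by
      intro h
      apply hk1
      linear_combination h - two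
    obtain ⟨lam, hlam⟩ : ∃ lam, lam = kap / (1 + kap) := ⟨_, rfl⟩
    have hl4 : σ (σ (σ (σ lam))) = lam := by
      rw [hlam]
      simp only [map_div₀, map_add, map_one, hk4]
    have hl0 : lam ≠ 0 := by rw [hlam]; exact div_ne_zero hk0 h1k
    have hle : lam * (1 + kap) = kap := by rw [hlam]; field_simp
    have hl1 : lam ≠ 1 := by
      intro h
      rw [h] at hle
      apply one_ne_zero (α := K)
      linear_combination hle
    have hex : ∃ t, σ (σ (σ (σ t))) ≠ t ∧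
        (t + σ t) * (σ (σ (σ (σ t))) + σ (σ (σ (σ (σ t))))) =
        lam * ((t + σ (σ (σ (σ t)))) * (σ t + σ (σ (σ (σ (σ t)))))) := by
      by_cases htr : tr4 σ lam = 1
      · exact case_one σ hI h8 hne hl4 htr
      · obtain ⟨χ, hS⟩ := hCH K σ h8 hne
        obtain ⟨c, hc4, hc0, hc⟩ := hA K σ χ hS lam hl4 hl0 hl1 htr
        obtain ⟨x, hx, hxne⟩ := hB1 K σ χ hS lam hl4 htr c hc4 hc0 hc
        have hsum := hB3 K σ χ hS lam hl4
        obtain ⟨x', hx', hpos⟩ : ∃ x ∈ XX σ, 0 < ∑ d ∈ VV σ, χ (QQ σ lam x d) := by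
          by_contra hcon
          push Not at hcon
          have := (Finset.sum_eq_zero_iff_of_nonpos hcon).mp hsum x hx
          exact hxne this
        obtain ⟨e, r, u, he, hr, hu, hq⟩ := hC1 K σ χ hS lam hl4 x' hx' hpos
        exact hC2 K σ h8 hne lam hl4 x' hx' e r u he hr hu hq
    obtain ⟨t, ht, hrel⟩ := hex
    refine ⟨t, ?_, ?_⟩
    · intro h
      apply ht
      rw [h, h, h, h]
    · -- Ptolemy
      obtain ⟨t4, ht4⟩ : ∃ t4, t4 = σ (σ (σ (σ t))) := ⟨_, rfl⟩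
      obtain ⟨t5, ht5⟩ : ∃ t5, t5 = σ t4 := ⟨_, rfl⟩
      rw [← ht4, ← ht5] at hrel
      rw [← ht4, ← ht5]
      have hl : lam = kap + lam * kap := by linear_combination hle - lam * kap * two
      generalize σ t = t1 at hrel ⊢
      have e1 : (t + t5) * (t4 + t1) = (t + t1) * (t4 + t5) + (t + t4) * (t1 + t5) := by
        linear_combination -(t * t5 + t1 * t4) * two
      rw [e1, hrel]
      linear_combination ((t + t4) * (t1 + t5)) * hl

theorem final : StmFinal := by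
  have hI := Pool.Agent.R916.MR.stmInd
  exact Pool.Agent.R724.MR.mrD (stmT_of Pool.Agent.R916.MR.stmCH hI (stmA_of hI)
    (Pool.Agent.R883.MR.b1 hI) (Pool.Agent.R883.MR.b3 hI) (Pool.Agent.R359.MR.c1 hI)
    (Pool.Agent.R780.MR.t_C2 hI))

end Pool.Agent.R793.MR
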